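import Pool.Agent.Q153.SpanTwo.Defs
import Pool.Agent.Q153.SpanTwo.Phi

/-!
# Two-element signed spanning sets in `ℤ_4 × ℤ_{4l}`
-/

set_option autoImplicit false

namespace Pool.Agent.Results.MP_7e2005_co.OrderFour

open Pool.Agent.Q153.SpanTwo

/-- **Theorem.** Let `l ≥ 1`, `s ≥ 0` and `t = ⌊s / 2⌋`. Then `φ_±(ℤ_4 × ℤ_{4l}, [0,s]) = 2` if and
only if `2 l ≤ t ^ 2` and, in case `t = 2 m` is even and `l = 2 m ^ 2 - d` with `d < m`, the number
`d` is even, and divisible by `4` if `m` is odd. -/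
theorem result (l s : ℕ) (hl : 1 ≤ l) :
    phi (ZMod 4 × ZMod (4 * l)) s = 2 ↔
      2 * l ≤ (s / 2) ^ 2 ∧
        ∀ m d : ℕ, s / 2 = 2 * m → l + d = 2 * m ^ 2 → d < m → 2 ∣ d ∧ (Odd m → 4 ∣ d) := by
  rw [phi_eq_two_iff (by norm_num), spans_iff (by norm_num) hl]
  unfold Adm
  rw [if_neg (by rintro ⟨h, -⟩; revert h; decide), show (2 * s + 1) / 4 = s / 2 by omega]
  rfl

end Pool.Agent.Results.MP_7e2005_co.OrderFour
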