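import Pool.Agent.Q153.SpanTwo.Defs
import Pool.Agent.Q153.SpanTwo.Phi

/-!
# Two-element signed spanning sets in `ℤ_3 × ℤ_{3k}`
-/

set_option autoImplicit false

namespace Pool.Agent.Results.MP_7e2005_co.OrderThree

open Pool.Agent.Q153.SpanTwo

/-- **Theorem.** For all `k ≥ 1` and `e ≥ 0`:
* `φ_±(ℤ_3 × ℤ_{3k}, [0, 3e]) = 2` if and only if `k ≤ 2 e ^ 2` and, in case `k = 2 e ^ 2 - d` with
  `d < e`, the number `d` is even, and divisible by `4` if `e` is odd;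
* `φ_±(ℤ_3 × ℤ_{3k}, [0, 3e+1]) = 2` if and only if `k ≤ 2 e (e + 1)`;
* `φ_±(ℤ_3 × ℤ_{3k}, [0, 3e+2]) = 2` if and only if `k ≤ 2 e (e + 1) + 1`. -/
theorem result (k e : ℕ) (hk : 1 ≤ k) :
    (phi (ZMod 3 × ZMod (3 * k)) (3 * e) = 2 ↔
      k ≤ 2 * e ^ 2 ∧ ∀ d, k + d = 2 * e ^ 2 → d < e → 2 ∣ d ∧ (Odd e → 4 ∣ d)) ∧
    (phi (ZMod 3 × ZMod (3 * k)) (3 * e + 1) = 2 ↔ k ≤ 2 * e * (e + 1)) ∧
    (phi (ZMod 3 × ZMod (3 * k)) (3 * e + 2) = 2 ↔ k ≤ 2 * e * (e + 1) + 1) := by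
  have hodd : Odd 3 := by decide
  refine ⟨?_, ?_, ?_⟩
  · rw [phi_eq_two_iff (by norm_num), spans_iff (by norm_num) hk]
    unfold Adm
    rw [if_neg (by omega), show (2 * (3 * e) + 1) / 3 = 2 * e by omega]
    unfold InK
    constructor
    · rintro ⟨h1, h2⟩
      refine ⟨?_, fun d h3 h4 => h2 e d rfl h3 h4⟩
      have : (2 * e) ^ 2 = 2 * (2 * e ^ 2) := by ring
      omega
    · rintro ⟨h1, h2⟩
      refine ⟨?_, ?_⟩
      · have : (2 * e) ^ 2 = 2 * (2 * e ^ 2) := by ring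
        omega
      · intro m d h3 h4 h5
        have : m = e := by omega
        subst this
        exact h2 d h4 h5
  · rw [phi_eq_two_iff (by norm_num), spans_iff (by norm_num) hk]
    unfold Adm
    rw [if_neg (by omega), show (2 * (3 * e + 1) + 1) / 3 = 2 * e + 1 by omega]
    unfold InK
    have h0 : (2 * e + 1) ^ 2 = 2 * (2 * e * (e + 1)) + 1 := by ring
    constructor
    · rintro ⟨h1, -⟩
      omega
    · intro h1
      exact ⟨by omega, fun m d h3 => by omega⟩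
  · rw [phi_eq_two_iff (by norm_num), spans_iff (by norm_num) hk]
    unfold Adm
    rw [if_pos ⟨hodd, ⟨e + 1, by ring⟩⟩, show (3 * e + 2 + 1) / 3 = e + 1 by omega,
      show 2 * (e + 1) - 1 = 2 * e + 1 by omega]
    have h0 : (2 * e + 1) ^ 2 = 2 * (2 * e * (e + 1)) + 1 := by ring
    omega

end Pool.Agent.Results.MP_7e2005_co.OrderThree
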